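import Pool.Agent.N505.Rips.Class

set_option autoImplicit false

namespace Pool.Agent.N505.Rips

open Finsupp

/-- ordered simplices of a Vietoris–Rips complex -/
lemma orderedSimplices_VR {X : Type} [PseudoMetricSpace X] (r : ℝ) (m : ℕ) :
    orderedSimplices (VR X r) (m + 1) = {v | Cl (fun x y : X => dist x y ≤ r) v} := by
  classical
  ext v
  simp only [orderedSimplices, Set.mem_ofPred_eq, Nat.add_eq_zero_iff, one_ne_zero, and_false,
    false_or]
  constructor
  · rintro ⟨σ, hσ, h⟩ i j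
    have hm : ∀ k, v k ∈ σ := fun k => by
      rw [← Finset.mem_coe, h]
      exact ⟨k, rfl⟩
    exact hσ.2 _ (hm i) _ (hm j)
  · intro h
    refine ⟨Finset.univ.image v, ⟨⟨v 0, Finset.mem_image_of_mem _ (Finset.mem_univ _)⟩, ?_⟩, ?_⟩
    · intro x hx y hy
      obtain ⟨i, -, rfl⟩ := Finset.mem_image.1 hx
      obtain ⟨j, -, rfl⟩ := Finset.mem_image.1 hy
      exact h i j
    · rw [Finset.coe_image, Finset.coe_univ, Set.image_univ]

lemma nontrivial_of {X : Type} [PseudoMetricSpace X] (r : ℝ) (q : ℕ)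
    (h : ∃ z ∈ Sup (fun v : Fin (q + 1) → X => Cl (fun x y : X => dist x y ≤ r) v),
      boundary X q z = 0 ∧
      ∀ w ∈ Sup (fun v : Fin (q + 2) → X => Cl (fun x y : X => dist x y ≤ r) v),
        boundary X (q + 1) w ≠ z) :
    Nontrivial (ReducedHomology (VR X r) q) := by
  obtain ⟨z, hz, h0, hw⟩ := h
  have hzc : z ∈ Cycles (VR X r) q := by
    refine ⟨?_, h0⟩
    rw [orderedSimplices_VR]
    exact hz
  rw [Submodule.Quotient.nontrivial_iff]
  intro ht
  have h1 : (⟨z, hzc⟩ : ↥(Cycles (VR X r) q)) ∈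
      (Boundaries (VR X r) q).submoduleOf (Cycles (VR X r) q) := by
    rw [ht]; exact Submodule.mem_top
  have h2 : z ∈ Boundaries (VR X r) q := h1
  obtain ⟨w, hw', he⟩ := h2
  rw [orderedSimplices_VR] at hw'
  exact hw w hw' he

lemma subsingleton_of {X : Type} [PseudoMetricSpace X] (r : ℝ) (q : ℕ)
    (h : ∀ z ∈ Sup (fun v : Fin (q + 1) → X => Cl (fun x y : X => dist x y ≤ r) v),
      boundary X q z = 0 →
      ∃ w ∈ Sup (fun v : Fin (q + 2) → X => Cl (fun x y : X => dist x y ≤ r) v),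
        boundary X (q + 1) w = z) :
    Subsingleton (ReducedHomology (VR X r) q) := by
  rw [Submodule.Quotient.subsingleton_iff, eq_top_iff]
  rintro ⟨z, hz⟩ -
  obtain ⟨hz1, hz2⟩ := hz
  rw [orderedSimplices_VR] at hz1
  obtain ⟨w, hw, he⟩ := h z hz1 hz2
  change z ∈ Boundaries (VR X r) q
  refine ⟨w, ?_, he⟩
  rw [orderedSimplices_VR]
  exact hw

end Pool.Agent.N505.Rips
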