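import Pool.Agent.N505.Rips.Vanish

set_option autoImplicit false

namespace Pool.Agent.N505.Rips

open Finsupp

variable {V W : Type}

/-- a vertex of the cross-polytope for each sign vector -/
def pick {m : ℕ} (c c' : Fin m → V) (ε : Fin m → Bool) : Fin m → V :=
  fun i => if ε i then c i else c' i

/-- the sign of a sign vector -/
def sgn {m : ℕ} (ε : Fin m → Bool) : ℤ := ∏ i, if ε i then 1 else -1

/-- the fundamental cycle of the cross-polytope -/
noncomputable def cross {m : ℕ} (c c' : Fin m → V) : (Fin m → V) →₀ ℤ :=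
  ∑ ε : Fin m → Bool, single (pick c c' ε) (sgn ε)

lemma sgn_update {m : ℕ} (ε : Fin m → Bool) (j : Fin m) :
    sgn (Function.update ε j (!ε j)) = - sgn ε := by
  unfold sgn
  rw [← Finset.mul_prod_erase _ _ (Finset.mem_univ j),
    ← Finset.mul_prod_erase Finset.univ (fun i => if ε i then (1 : ℤ) else -1) (Finset.mem_univ j)]
  have h : ∀ i ∈ Finset.univ.erase j, (if Function.update ε j (!ε j) i then (1 : ℤ) else -1) =
      if ε i then 1 else -1 := by
    intro i hi
    rw [Function.update_of_ne (Finset.ne_of_mem_erase hi)]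
  rw [Finset.prod_congr rfl h, Function.update_self]
  cases ε j <;> simp

lemma boundary_cross {m : ℕ} (c c' : Fin (m + 1) → V) : boundary V m (cross c c') = 0 := by
  unfold cross
  rw [map_sum]
  simp only [boundary_single]
  rw [Finset.sum_comm]
  refine Finset.sum_eq_zero fun j _ => ?_
  have h : ∀ ε : Fin (m + 1) → Bool,
      single (pick c c' (Function.update ε j (!ε j)) ∘ j.succAbove)
        (sgn (Function.update ε j (!ε j)) * (-1 : ℤ) ^ (j : ℕ)) =
      - single (pick c c' ε ∘ j.succAbove) (sgn ε * (-1 : ℤ) ^ (j : ℕ)) := by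
    intro ε
    have h1 : pick c c' (Function.update ε j (!ε j)) ∘ j.succAbove =
        pick c c' ε ∘ j.succAbove := by
      funext i
      simp only [Function.comp_apply, pick]
      rw [Function.update_of_ne (Fin.succAbove_ne j i)]
    rw [h1, sgn_update, neg_mul, Finsupp.single_neg]
  have h2 : ∑ ε : Fin (m + 1) → Bool, single (pick c c' ε ∘ j.succAbove)
      (sgn ε * (-1 : ℤ) ^ (j : ℕ)) =
      - ∑ ε : Fin (m + 1) → Bool, single (pick c c' ε ∘ j.succAbove)
      (sgn ε * (-1 : ℤ) ^ (j : ℕ)) := by
    rw [← Finset.sum_neg_distrib]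
    let e : (Fin (m + 1) → Bool) ≃ (Fin (m + 1) → Bool) :=
      { toFun := fun ε => Function.update ε j (!ε j)
        invFun := fun ε => Function.update ε j (!ε j)
        left_inv := fun ε => by simp
        right_inv := fun ε => by simp }
    rw [← Equiv.sum_comp e]
    exact Finset.sum_congr rfl fun ε _ => h ε
  exact self_eq_neg.1 h2

/-- The incidence matrix of a tuple with the tuple `c`. -/
def inc [DecidableEq W] (g : V → W) {m k : ℕ} (c : Fin m → V) (v : Fin k → V) :
    Matrix (Fin k) (Fin m) ℤ :=
  Matrix.of fun i j => if g (v i) = g (c j) then 1 else 0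

/-- the cochain detecting the facet `c` -/
noncomputable def lam [DecidableEq W] (g : V → W) {m : ℕ} (c : Fin m → V) :
    ((Fin m → V) →₀ ℤ) →ₗ[ℤ] ℤ :=
  Finsupp.linearCombination ℤ fun v => (inc g c v).det

lemma lam_single [DecidableEq W] (g : V → W) {m : ℕ} (c : Fin m → V) (v : Fin m → V) (a : ℤ) :
    lam g c (single v a) = a * (inc g c v).det := by
  unfold lam
  rw [Finsupp.linearCombination_single, smul_eq_mul]

lemma lam_cross [DecidableEq W] (g : V → W) {m : ℕ} (c c' : Fin m → V)
    (hc : Function.Injective (g ∘ c)) (hcc : ∀ i j, g (c' i) ≠ g (c j)) :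
    lam g c (cross c c') = 1 := by
  unfold cross
  rw [map_sum, Finset.sum_eq_single (fun _ => true)]
  · rw [lam_single]
    have h1 : sgn (fun _ : Fin m => true) = 1 := by simp [sgn]
    have h2 : inc g c (pick c c' fun _ => true) = 1 := by
      ext i j
      simp only [inc, pick, Matrix.of_apply, if_true, Matrix.one_apply]
      by_cases h : i = j
      · subst h; simp
      · rw [if_neg h, if_neg]
        exact fun e => h (hc e)
    rw [h1, h2, Matrix.det_one, mul_one]
  · intro ε _ hε
    obtain ⟨i, hi⟩ : ∃ i, ε i = false := by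
      by_contra hcon
      push Not at hcon
      exact hε (funext fun i => by simpa using hcon i)
    rw [lam_single, Matrix.det_eq_zero_of_row_eq_zero i, mul_zero]
    intro j
    simp only [inc, pick, Matrix.of_apply, hi]
    rw [if_neg]
    simpa using hcc i j
  · intro h
    exact absurd (Finset.mem_univ _) h

lemma lam_boundary_single [DecidableEq W] (g : V → W) {m : ℕ} (c : Fin m → V)
    (hc : Function.Injective (g ∘ c)) (u : Fin (m + 1) → V) (a : ℤ)
    (hmax : (∀ j, ∃ i, g (u i) = g (c j)) → ∀ i, ∃ j, g (u i) = g (c j)) :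
    lam g c (boundary V m (single u a)) = 0 := by
  let N : Matrix (Fin (m + 1)) (Fin (m + 1)) ℤ :=
    Matrix.of fun i j => Fin.cases 1 (fun j => inc g c u i j) j
  have hN0 : ∀ i, N i 0 = 1 := fun i => rfl
  have hNs : ∀ i j, N i (Fin.succ j) = inc g c u i j := fun i j => rfl
  have h1 : lam g c (boundary V m (single u a)) = a * N.det := by
    rw [boundary_single, map_sum, Matrix.det_succ_column_zero, Finset.mul_sum]
    refine Finset.sum_congr rfl fun i _ => ?_
    rw [lam_single, hN0]
    have : N.submatrix i.succAbove Fin.succ = inc g c (u ∘ i.succAbove) := by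
      ext k l
      rfl
    rw [this]
    ring
  rw [h1]
  suffices h : N.det = 0 by rw [h, mul_zero]
  by_cases hall : ∀ i, ∃ j, g (u i) = g (c j)
  · rw [← Matrix.exists_mulVec_eq_zero_iff]
    refine ⟨Fin.cons 1 (fun _ => -1), ?_, ?_⟩
    · intro h
      have := congrFun h 0
      simp at this
    · funext i
      rw [Matrix.mulVec, dotProduct, Fin.sum_univ_succ]
      simp only [Fin.cons_zero, Fin.cons_succ, hN0, hNs, mul_one, Pi.zero_apply]
      obtain ⟨j, hj⟩ := hall i
      rw [Finset.sum_eq_single j]
      · simp [inc, hj]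
      · intro l _ hl
        have : g (u i) ≠ g (c l) := by
          rw [hj]
          exact fun e => hl (hc e).symm
        simp [inc, this]
      · intro h
        exact absurd (Finset.mem_univ _) h
  · have h2 : ¬ ∀ j, ∃ i, g (u i) = g (c j) := fun h => hall (hmax h)
    push Not at h2
    obtain ⟨j, hj⟩ := h2
    refine Matrix.det_eq_zero_of_column_eq_zero (Fin.succ j) fun i => ?_
    rw [hNs]
    simp only [inc, Matrix.of_apply]
    rw [if_neg (hj i)]

/-- Non-vanishing criterion. -/
theorem nonvanish [DecidableEq W] (A : V → V → Prop) {m : ℕ} (g : V → W)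
    (c c' : Fin (m + 1) → V) (hc : Function.Injective (g ∘ c))
    (hcc : ∀ i j, g (c' i) ≠ g (c j))
    (hA : ∀ ε, Cl A (pick c c' ε))
    (hmax : ∀ u : Fin (m + 2) → V, Cl A u → (∀ j, ∃ i, g (u i) = g (c j)) →
      ∀ i, ∃ j, g (u i) = g (c j)) :
    ∃ z ∈ Sup (fun v : Fin (m + 1) → V => Cl A v), boundary V m z = 0 ∧
      ∀ w ∈ Sup (fun v : Fin (m + 2) → V => Cl A v), boundary V (m + 1) w ≠ z := by
  refine ⟨cross c c', ?_, boundary_cross c c', ?_⟩
  · refine Submodule.sum_mem _ fun ε _ => ?_
    exact Finsupp.single_mem_supported ℤ _ (hA ε)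
  · intro w hw h
    have h1 : lam g c (boundary V (m + 1) w) = 0 := by
      have e : w = ∑ v ∈ w.support, single v (w v) := (Finsupp.sum_single w).symm
      rw [e, map_sum, map_sum]
      refine Finset.sum_eq_zero fun v hv => ?_
      exact lam_boundary_single g c hc v _ (hmax v (hw hv))
    rw [h, lam_cross g c c' hc hcc] at h1
    exact one_ne_zero h1

end Pool.Agent.N505.Rips
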