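import Mathlib

set_option autoImplicit false

namespace Pool.Agent.N505.Rips

/-- the number of ones among the nine lowest binary digits -/
def pc (n : ℕ) : ℕ :=
  n % 2 + n / 2 % 2 + n / 4 % 2 + n / 8 % 2 + n / 16 % 2 + n / 32 % 2 + n / 64 % 2 + n / 128 % 2 +
    n / 256 % 2

/-- the words of weight at least eight -/
def heavy : List ℕ := [511, 510, 509, 507, 503, 495, 479, 447, 383, 255]

/-- syndrome -/
def syn (n : ℕ) : ℕ :=
  (n % 2 * 4) ^^^ (n / 2 % 2 * 2) ^^^ (n / 4 % 2 * 1) ^^^ (n / 8 % 2 * 3) ^^^ (n / 16 % 2 * 3) ^^^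
    (n / 32 % 2 * 5) ^^^ (n / 64 % 2 * 5) ^^^ (n / 128 % 2 * 6) ^^^ (n / 256 % 2 * 6)

/-- the code -/
def BL : List ℕ := (List.range 512).filter fun n => syn n = 0

lemma BL_length : BL.length = 64 := by decide +kernel

lemma heavy_spec : ∀ n ∈ List.range 512, 8 ≤ pc n → n ∈ heavy := by decide +kernel

lemma BL_diam : ∀ b ∈ BL, ∀ b' ∈ BL, pc (b ^^^ b') ≤ 7 := by decide +kernel

lemma BL_hits : ∀ a ∈ List.range 512, (BL.filter fun b => 8 ≤ pc (b ^^^ a)).length ≤ 2 := by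
  decide +kernel

lemma heavy_inter : ∀ t ∈ List.range 512, t ≠ 0 →
    (heavy.filter fun m => 8 ≤ pc (m ^^^ t)).length ≤ 2 := by
  decide +kernel

end Pool.Agent.N505.Rips
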