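import Pool.Agent.N505.Rips.Codes

set_option autoImplicit false

namespace Pool.Agent.N505.Rips

lemma xor_bit (a b k : ℕ) : (a ^^^ b) / 2 ^ k % 2 = (a / 2 ^ k % 2 + b / 2 ^ k % 2) % 2 := by
  have h := Nat.testBit_xor a b k
  rw [Nat.testBit_eq_decide_div_mod_eq, Nat.testBit_eq_decide_div_mod_eq,
    Nat.testBit_eq_decide_div_mod_eq] at h
  rcases Nat.mod_two_eq_zero_or_one ((a ^^^ b) / 2 ^ k) with h1 | h1 <;>
  rcases Nat.mod_two_eq_zero_or_one (a / 2 ^ k) with h2 | h2 <;>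
  rcases Nat.mod_two_eq_zero_or_one (b / 2 ^ k) with h3 | h3 <;>
  simp [h1, h2, h3] at h ⊢

lemma pc_xor (a b : ℕ) : pc (a ^^^ b) =
    (a % 2 + b % 2) % 2 + (a / 2 % 2 + b / 2 % 2) % 2 + (a / 4 % 2 + b / 4 % 2) % 2 +
    (a / 8 % 2 + b / 8 % 2) % 2 + (a / 16 % 2 + b / 16 % 2) % 2 +
    (a / 32 % 2 + b / 32 % 2) % 2 + (a / 64 % 2 + b / 64 % 2) % 2 +
    (a / 128 % 2 + b / 128 % 2) % 2 + (a / 256 % 2 + b / 256 % 2) % 2 := by
  have h0 : (a ^^^ b) % 2 = (a % 2 + b % 2) % 2 := by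
    have h := xor_bit a b 0
    rwa [pow_zero, Nat.div_one, Nat.div_one, Nat.div_one] at h
  have h1 : (a ^^^ b) / 2 % 2 = (a / 2 % 2 + b / 2 % 2) % 2 := xor_bit a b 1
  have h2 : (a ^^^ b) / 4 % 2 = (a / 4 % 2 + b / 4 % 2) % 2 := xor_bit a b 2
  have h3 : (a ^^^ b) / 8 % 2 = (a / 8 % 2 + b / 8 % 2) % 2 := xor_bit a b 3
  have h4 : (a ^^^ b) / 16 % 2 = (a / 16 % 2 + b / 16 % 2) % 2 := xor_bit a b 4
  have h5 : (a ^^^ b) / 32 % 2 = (a / 32 % 2 + b / 32 % 2) % 2 := xor_bit a b 5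
  have h6 : (a ^^^ b) / 64 % 2 = (a / 64 % 2 + b / 64 % 2) % 2 := xor_bit a b 6
  have h7 : (a ^^^ b) / 128 % 2 = (a / 128 % 2 + b / 128 % 2) % 2 := xor_bit a b 7
  have h8 : (a ^^^ b) / 256 % 2 = (a / 256 % 2 + b / 256 % 2) % 2 := xor_bit a b 8
  unfold pc
  rw [h0, h1, h2, h3, h4, h5, h6, h7, h8]

lemma xor_lt {a b : ℕ} (ha : a < 512) (hb : b < 512) : a ^^^ b < 512 :=
  Nat.xor_lt_two_pow (n := 9) ha hb

/-- the far points -/
def far (a : ℕ) : Finset ℕ := (Finset.range 512).filter fun u => 8 ≤ pc (a ^^^ u)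

lemma card_far {a : ℕ} (ha : a < 512) : (far a).card ≤ 10 := by
  have h : (far a).card ≤ (heavy.toFinset).card := by
    refine Finset.card_le_card_of_injOn (fun u => a ^^^ u) ?_ ?_
    · intro u hu
      obtain ⟨h1, h2⟩ := Finset.mem_filter.1 hu
      have := heavy_spec (a ^^^ u)
        (List.mem_range.2 (xor_lt ha (Finset.mem_range.1 h1))) h2
      simpa using this
    · intro u _ v _ h
      exact Nat.xor_right_injective h
  exact h.trans (by decide)

lemma card_far_inter {a b : ℕ} (ha : a < 512) (hb : b < 512) (hab : a ≠ b) :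
    (far a ∩ far b).card ≤ 2 := by
  have hne : a ^^^ b ≠ 0 := by
    intro h
    exact hab (Nat.xor_eq_zero_iff.1 h)
  have h2 := heavy_inter (a ^^^ b) (List.mem_range.2 (xor_lt ha hb)) hne
  have h : (far a ∩ far b).card ≤
      ((heavy.filter fun m => 8 ≤ pc (m ^^^ (a ^^^ b))).toFinset).card := by
    refine Finset.card_le_card_of_injOn (fun u => a ^^^ u) ?_ ?_
    · intro u hu
      have hu := Finset.mem_coe.1 hu
      obtain ⟨h1, h2⟩ := Finset.mem_inter.1 hu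
      obtain ⟨h1, h3⟩ := Finset.mem_filter.1 h1
      obtain ⟨-, h4⟩ := Finset.mem_filter.1 h2
      have h5 := heavy_spec (a ^^^ u)
        (List.mem_range.2 (xor_lt ha (Finset.mem_range.1 h1))) h3
      have h6 : (a ^^^ u) ^^^ (a ^^^ b) = b ^^^ u := by
        rw [Nat.xor_comm a u, Nat.xor_assoc, ← Nat.xor_assoc a a b, Nat.xor_self, Nat.zero_xor,
          Nat.xor_comm]
      have h7 : (a ^^^ u) ∈ heavy.filter fun m => 8 ≤ pc (m ^^^ (a ^^^ b)) := by
        rw [List.mem_filter]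
        refine ⟨h5, ?_⟩
        rw [h6]
        simpa using h4
      simpa using h7
    · intro u _ v _ h
      exact Nat.xor_right_injective h
  exact h.trans ((List.toFinset_card_le _).trans h2)

/-- the code as a finset -/
def BF : Finset ℕ := BL.toFinset

lemma BF_lt {b : ℕ} (hb : b ∈ BF) : b < 512 := by
  have h : b ∈ BL := List.mem_toFinset.1 hb
  exact List.mem_range.1 (List.mem_filter.1 h).1

lemma card_BF : BF.card = 64 := by
  rw [BF, List.toFinset_card_of_nodup, BL_length]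
  exact (List.nodup_range).filter _

lemma BF_diam {b b' : ℕ} (hb : b ∈ BF) (hb' : b' ∈ BF) : pc (b ^^^ b') ≤ 7 :=
  BL_diam b (List.mem_toFinset.1 hb) b' (List.mem_toFinset.1 hb')

/-- the members of the code far from `a` -/
def hits (a : ℕ) : Finset ℕ := BF.filter fun b => 8 ≤ pc (b ^^^ a)

lemma card_hits {a : ℕ} (ha : a < 512) : (hits a).card ≤ 2 := by
  have h := BL_hits a (List.mem_range.2 ha)
  have e : hits a = (BL.filter fun b => 8 ≤ pc (b ^^^ a)).toFinset := by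
    ext b
    simp [hits, BF]
  rw [e]
  exact (List.toFinset_card_le _).trans h

/-- The counting lemma. -/
theorem count (a : Fin 32 → ℕ) (ha : ∀ i, a i < 512) :
    (∃ b ∈ BF, ∀ i, pc (b ^^^ a i) ≤ 7) ∨
    ∃ w < 512, (∀ i, pc (w ^^^ a i) ≤ 7) ∧
      ∀ j, ∃ b ∈ BF, pc (b ^^^ w) ≤ 7 ∧ ∀ i, i ≠ j → pc (b ^^^ a i) ≤ 7 := by
  right
  have h1 : ∀ j, ∃ b1 ∈ BF, ∃ b2 ∈ BF, b1 ≠ b2 ∧ (∀ i, i ≠ j → pc (b1 ^^^ a i) ≤ 7) ∧
      ∀ i, i ≠ j → pc (b2 ^^^ a i) ≤ 7 := by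
    intro j
    set U := (Finset.univ.erase j).biUnion fun i => hits (a i) with hU
    have c1 : U.card ≤ 62 := by
      refine (Finset.card_biUnion_le).trans ?_
      refine (Finset.sum_le_card_nsmul _ _ 2 fun i _ => card_hits (ha i)).trans ?_
      rw [Finset.card_erase_of_mem (Finset.mem_univ _), Finset.card_univ, Fintype.card_fin]
      norm_num
    have c2 : 1 < (BF \ U).card := by
      have := Finset.le_card_sdiff U BF
      rw [card_BF] at this
      omega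
    obtain ⟨b1, hb1, b2, hb2, hne⟩ := Finset.one_lt_card.1 c2
    have key : ∀ b ∈ BF \ U, ∀ i, i ≠ j → pc (b ^^^ a i) ≤ 7 := by
      intro b hb i hi
      by_contra hlt
      obtain ⟨m1, m2⟩ := Finset.mem_sdiff.1 hb
      refine m2 (Finset.mem_biUnion.2 ⟨i, Finset.mem_erase.2 ⟨hi, Finset.mem_univ _⟩, ?_⟩)
      exact Finset.mem_filter.2 ⟨m1, by omega⟩
    exact ⟨b1, (Finset.mem_sdiff.1 hb1).1, b2, (Finset.mem_sdiff.1 hb2).1, hne, key b1 hb1,
      key b2 hb2⟩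
  choose b1 hb1 b2 hb2 hne k1 k2 using h1
  set E := (Finset.univ : Finset (Fin 32)).biUnion
    fun j => far (a j) ∪ (far (b1 j) ∩ far (b2 j)) with hE
  have cE : E.card < (Finset.range 512).card := by
    rw [Finset.card_range]
    refine lt_of_le_of_lt (Finset.card_biUnion_le) ?_
    have h := Finset.sum_le_card_nsmul (Finset.univ : Finset (Fin 32))
      (fun j => (far (a j) ∪ (far (b1 j) ∩ far (b2 j))).card) 12 (fun j _ => by
        have e1 := card_far (ha j)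
        have e2 := card_far_inter (BF_lt (hb1 j)) (BF_lt (hb2 j)) (hne j)
        have e3 := Finset.card_union_le (far (a j)) (far (b1 j) ∩ far (b2 j))
        omega)
    rw [Finset.card_univ, Fintype.card_fin, smul_eq_mul] at h
    omega
  obtain ⟨w, hw, hwE⟩ := Finset.exists_mem_notMem_of_card_lt_card cE
  have hw' := Finset.mem_range.1 hw
  refine ⟨w, hw', fun i => ?_, fun j => ?_⟩
  · by_contra hlt
    refine hwE (Finset.mem_biUnion.2 ⟨i, Finset.mem_univ _, Finset.mem_union_left _ ?_⟩)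
    exact Finset.mem_filter.2 ⟨hw, by rw [Nat.xor_comm]; omega⟩
  · by_cases c : pc (b1 j ^^^ w) ≤ 7
    · exact ⟨b1 j, hb1 j, c, k1 j⟩
    · by_cases c' : pc (b2 j ^^^ w) ≤ 7
      · exact ⟨b2 j, hb2 j, c', k2 j⟩
      · refine absurd (Finset.mem_biUnion.2 ⟨j, Finset.mem_univ _, Finset.mem_union_right _ ?_⟩) hwE
        exact Finset.mem_inter.2 ⟨Finset.mem_filter.2 ⟨hw, by omega⟩,
          Finset.mem_filter.2 ⟨hw, by omega⟩⟩

end Pool.Agent.N505.Rips
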