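import Pool.Agent.N505.Rips.Bridge
import Pool.Agent.N505.Rips.Count

set_option autoImplicit false

namespace Pool.Agent.N505.Rips

open Finsupp

lemma dist_bit (a b : ℕ) : dist ((a % 2 : ℕ) : ℤ) ((b % 2 : ℕ) : ℤ) =
    (((a % 2 + b % 2) % 2 : ℕ) : ℝ) := by
  rcases Nat.mod_two_eq_zero_or_one a with h | h <;>
  rcases Nat.mod_two_eq_zero_or_one b with h' | h' <;>
  simp [h, h', Int.dist_eq]

/-- the vertex of the cube with given binary code -/
def dec (n : ℕ) : ↥(cube 9) :=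
  ⟨WithLp.toLp 1 fun i : Fin 9 => ((n / 2 ^ (i : ℕ) % 2 : ℕ) : ℤ), fun i => by
    rcases Nat.mod_two_eq_zero_or_one (n / 2 ^ (i : ℕ)) with h | h
    · left
      change ((n / 2 ^ (i : ℕ) % 2 : ℕ) : ℤ) = 0
      rw [h]; rfl
    · right
      change ((n / 2 ^ (i : ℕ) % 2 : ℕ) : ℤ) = 1
      rw [h]; rfl⟩

lemma dist_dec (a b : ℕ) : dist (dec a) (dec b) = (pc (a ^^^ b) : ℝ) := by
  rw [Subtype.dist_eq, PiLp.dist_eq_of_L1, pc_xor]
  change ∑ i : Fin 9, dist ((a / 2 ^ (i : ℕ) % 2 : ℕ) : ℤ) ((b / 2 ^ (i : ℕ) % 2 : ℕ) : ℤ) = _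
  rw [Finset.sum_congr rfl fun (i : Fin 9) _ => dist_bit (a / 2 ^ (i : ℕ)) (b / 2 ^ (i : ℕ))]
  simp only [Fin.sum_univ_succ, Fin.sum_univ_zero, Fin.val_zero, Fin.val_succ, pow_zero,
    Nat.div_one]
  push_cast
  norm_num
  ring

lemma dec_surj (x : ↥(cube 9)) : ∃ n < 512, dec n = x := by
  obtain ⟨x, hx⟩ := x
  have hx' : ∀ i, ∃ y : ℕ, y < 2 ∧ x i = (y : ℤ) := by
    intro i
    rcases hx i with h | h
    · exact ⟨0, by norm_num, by rw [h]; rfl⟩
    · exact ⟨1, by norm_num, by rw [h]; rfl⟩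
  choose y hy hxy using hx'
  refine ⟨y 0 + y 1 * 2 + y 2 * 4 + y 3 * 8 + y 4 * 16 + y 5 * 32 + y 6 * 64 + y 7 * 128 +
    y 8 * 256, ?_, ?_⟩
  · have h0 := hy 0
    have h1 := hy 1
    have h2 := hy 2
    have h3 := hy 3
    have h4 := hy 4
    have h5 := hy 5
    have h6 := hy 6
    have h7 := hy 7
    have h8 := hy 8
    omega
  · apply Subtype.ext
    apply PiLp.ext
    intro i
    rw [hxy i]
    have h0 := hy 0
    have h1 := hy 1
    have h2 := hy 2
    have h3 := hy 3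
    have h4 := hy 4
    have h5 := hy 5
    have h6 := hy 6
    have h7 := hy 7
    have h8 := hy 8
    change (((y 0 + y 1 * 2 + y 2 * 4 + y 3 * 8 + y 4 * 16 + y 5 * 32 + y 6 * 64 + y 7 * 128 +
      y 8 * 256) / 2 ^ (i : ℕ) % 2 : ℕ) : ℤ) = _
    congr 1
    fin_cases i
    · change (_ / 1) % 2 = y 0
      omega
    · change (_ / 2) % 2 = y 1
      omega
    · change (_ / 4) % 2 = y 2
      omega
    · change (_ / 8) % 2 = y 3
      omega
    · change (_ / 16) % 2 = y 4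
      omega
    · change (_ / 32) % 2 = y 5
      omega
    · change (_ / 64) % 2 = y 6
      omega
    · change (_ / 128) % 2 = y 7
      omega
    · change (_ / 256) % 2 = y 8
      omega

theorem cube_nine : Subsingleton (ReducedHomology (VR ↥(cube 9) 7) 31) := by
  classical
  refine subsingleton_of 7 31 ?_
  refine vanish (m := 31) (fun x y : ↥(cube 9) => dist x y ≤ 7) (fun x => ?_) (fun x y h => ?_)
    (BF.image dec) ?_ ?_
  · simp
  · simpa [dist_comm] using h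
  · intro b hb b' hb'
    obtain ⟨n, hn, rfl⟩ := Finset.mem_image.1 hb
    obtain ⟨n', hn', rfl⟩ := Finset.mem_image.1 hb'
    rw [dist_dec]
    exact_mod_cast BF_diam hn hn'
  · intro v _
    choose a ha hav using fun i => dec_surj (v i)
    have key : ∀ n i, pc (n ^^^ a i) ≤ 7 → dist (dec n) (v i) ≤ 7 := by
      intro n i h
      rw [← hav i, dist_dec]
      exact_mod_cast h
    rcases count a ha with ⟨b, hb, h⟩ | ⟨w, hw, h1, h2⟩
    · left
      exact ⟨dec b, Finset.mem_image_of_mem _ hb, fun i => key _ _ (h i)⟩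
    · right
      refine ⟨dec w, fun i => key _ _ (h1 i), fun j => ?_⟩
      obtain ⟨b, hb, h3, h4⟩ := h2 j
      refine ⟨dec b, Finset.mem_image_of_mem _ hb, ?_, fun i hi => key _ _ (h4 i hi)⟩
      rw [dist_dec]
      exact_mod_cast h3

end Pool.Agent.N505.Rips
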