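import Mathlib

/-!
# Vietoris–Rips complexes and reduced simplicial homology

Ordered simplicial chains with integer coefficients (Spanier, Munkres): the chain group on `m`
vertices is free on the `m`-tuples of vertices whose entries form a face, the empty tuple being
the generator in degree `-1`.
-/

set_option autoImplicit false

namespace Pool.Agent.N505.Rips

/-- The set of simplices of the Vietoris–Rips complex `VR(X; r)`: the finite nonempty subsets of
`X` in which all distances are at most `r`. -/
def VR (X : Type) [PseudoMetricSpace X] (r : ℝ) : Set (Finset X) :=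
  {σ | σ.Nonempty ∧ ∀ x ∈ σ, ∀ y ∈ σ, dist x y ≤ r}

/-- The lattice `ℤ^n` with the `ℓ¹` metric. -/
abbrev Zn (n : ℕ) : Type := PiLp 1 fun _ : Fin n => ℤ

/-- The cube `{0, 1}^n` in `ℤ^n`. -/
def cube (n : ℕ) : Set (Zn n) := {x | ∀ i, x i = 0 ∨ x i = 1}

section Homology

variable {V : Type}

/-- The ordered simplices with `m` vertices of a simplicial complex with set of simplices `K`: the
`m`-tuples of vertices whose set of entries is a simplex; for `m = 0`, the empty tuple. -/
def orderedSimplices (K : Set (Finset V)) (m : ℕ) : Set (Fin m → V) :=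
  {v | m = 0 ∨ ∃ σ ∈ K, (σ : Set V) = Set.range v}

/-- The boundary operator from tuples with `m + 1` entries to tuples with `m` entries, the
alternating sum of the tuples obtained by omitting one entry (the augmentation for `m = 0`). -/
noncomputable def boundary (V : Type) (m : ℕ) :
    ((Fin (m + 1) → V) →₀ ℤ) →ₗ[ℤ] ((Fin m → V) →₀ ℤ) :=
  Finsupp.linearCombination ℤ fun v : Fin (m + 1) → V =>
    ∑ j : Fin (m + 1), Finsupp.single (v ∘ j.succAbove) ((-1 : ℤ) ^ (j : ℕ))

/-- The reduced cycles of degree `q ≥ 0`. -/
noncomputable def Cycles (K : Set (Finset V)) (q : ℕ) : Submodule ℤ ((Fin (q + 1) → V) →₀ ℤ) :=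
  Finsupp.supported ℤ ℤ (orderedSimplices K (q + 1)) ⊓ LinearMap.ker (boundary V q)

/-- The boundaries of degree `q ≥ 0`. -/
noncomputable def Boundaries (K : Set (Finset V)) (q : ℕ) :
    Submodule ℤ ((Fin (q + 1) → V) →₀ ℤ) :=
  (Finsupp.supported ℤ ℤ (orderedSimplices K (q + 2))).map (boundary V (q + 1))

/-- The reduced simplicial homology group `H̃_q(K; ℤ)`, `q ≥ 0`. -/
abbrev ReducedHomology (K : Set (Finset V)) (q : ℕ) : Type :=
  ↥(Cycles K q) ⧸ (Boundaries K q).submoduleOf (Cycles K q)

end Homology

end Pool.Agent.N505.Rips
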