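import Pool.Agent.N505.Rips.Count

set_option autoImplicit false

namespace Pool.Agent.N505.Rips

/-- the `ℓ¹` distance in terms of codes -/
def D (p q : ℕ × ℕ) : ℕ := (p.1 - q.1) + (q.1 - p.1) + pc (p.2 ^^^ q.2)

/-- complement the binary part -/
def opp (p : ℕ × ℕ) : ℕ × ℕ := (p.1, p.2 ^^^ 255)

/-- the vertices of the facet -/
def YL : List (ℕ × ℕ) :=
  [(0, 0), (0, 24), (0, 44), (0, 52), (0, 73), (0, 81), (0, 101), (0, 125),
   (0, 138), (0, 146), (0, 166), (0, 190), (0, 195), (0, 219), (0, 239), (0, 247),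
   (2, 15), (2, 23), (2, 35), (2, 59), (2, 70), (2, 94), (2, 106), (2, 114),
   (2, 133), (2, 157), (2, 169), (2, 177), (2, 204), (2, 212), (2, 224), (2, 248)]

lemma YL_length : YL.length = 32 := rfl

lemma YL_nodup : YL.Nodup := by decide +kernel

lemma YL_range : ∀ p ∈ YL, p.1 < 3 ∧ p.2 < 256 := by decide +kernel

lemma opp_range : ∀ p ∈ YL, (opp p).1 < 3 ∧ (opp p).2 < 256 := by decide +kernel

lemma YL_diam : ∀ p ∈ YL, ∀ q ∈ YL, D p q ≤ 7 := by decide +kernel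

lemma YL_opp : ∀ p ∈ YL, ∀ q ∈ YL, p ≠ q → D p (opp q) ≤ 7 := by decide +kernel

lemma YL_opp' : ∀ p ∈ YL, ∀ q ∈ YL, p ≠ q → D (opp p) q ≤ 7 := by decide +kernel

lemma YL_opp_opp : ∀ p ∈ YL, ∀ q ∈ YL, D (opp p) (opp q) ≤ 7 := by decide +kernel

lemma opp_notMem : ∀ p ∈ YL, opp p ∉ YL := by decide +kernel

lemma YL_facet : ∀ l ∈ List.range 3, ∀ a ∈ List.range 256, (l, a) ∉ YL →
    ∃ p ∈ YL, 8 ≤ D (l, a) p := by decide +kernel

end Pool.Agent.N505.Rips
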