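import Pool.Agent.N505.Rips.LatticeNine

set_option autoImplicit false

namespace Pool.Agent.N505.Rips

open Finsupp

lemma cl_one_mod (a : ℕ) : cl 1 ((a % 2 : ℕ) : ℤ) = a % 2 := by
  unfold cl; omega

lemma gg_pt (p : ℕ × ℕ) (h1 : p.1 < 3) (h2 : p.2 < 256) : gg (pt p) = p := by
  refine Prod.ext ?_ ?_
  · change cl 2 (p.1 : ℤ) = p.1
    unfold cl
    omega
  · change cl 1 ((p.2 / 1 % 2 : ℕ) : ℤ) + cl 1 ((p.2 / 2 % 2 : ℕ) : ℤ) * 2 +
      cl 1 ((p.2 / 4 % 2 : ℕ) : ℤ) * 4 + cl 1 ((p.2 / 8 % 2 : ℕ) : ℤ) * 8 +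
      cl 1 ((p.2 / 16 % 2 : ℕ) : ℤ) * 16 + cl 1 ((p.2 / 32 % 2 : ℕ) : ℤ) * 32 +
      cl 1 ((p.2 / 64 % 2 : ℕ) : ℤ) * 64 + cl 1 ((p.2 / 128 % 2 : ℕ) : ℤ) * 128 = p.2
    rw [cl_one_mod, cl_one_mod, cl_one_mod, cl_one_mod, cl_one_mod, cl_one_mod, cl_one_mod,
      cl_one_mod]
    omega

/-- the `i`-th vertex of the facet -/
def yy (i : Fin 32) : ℕ × ℕ := YL.get (i.cast YL_length.symm)

lemma yy_mem (i : Fin 32) : yy i ∈ YL := List.get_mem _ _

lemma yy_inj : Function.Injective yy := by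
  intro i j h
  have := (List.nodup_iff_injective_get.1 YL_nodup) h
  simpa using this

lemma yy_surj {p : ℕ × ℕ} (hp : p ∈ YL) : ∃ i, yy i = p := by
  obtain ⟨n, hn⟩ := List.mem_iff_get.1 hp
  exact ⟨n.cast YL_length, hn⟩

theorem lattice_nine : Nontrivial (ReducedHomology (VR (Zn 9) 7) 31) := by
  classical
  refine nontrivial_of 7 31 ?_
  have gc : ∀ i, gg (pt (yy i)) = yy i := fun i =>
    gg_pt _ (YL_range _ (yy_mem i)).1 (YL_range _ (yy_mem i)).2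
  have gc' : ∀ i, gg (pt (opp (yy i))) = opp (yy i) := fun i =>
    gg_pt _ (opp_range _ (yy_mem i)).1 (opp_range _ (yy_mem i)).2
  have hle : ∀ p q : ℕ × ℕ, p.2 < 256 → q.2 < 256 → D p q ≤ 7 → dist (pt p) (pt q) ≤ 7 := by
    intro p q hp hq h
    rw [dist_pt p q hp hq]
    exact_mod_cast h
  refine nonvanish (m := 31) (fun x y : Zn 9 => dist x y ≤ 7) gg (fun i => pt (yy i))
    (fun i => pt (opp (yy i))) ?_ ?_ ?_ ?_
  · intro i j h
    have h' : gg (pt (yy i)) = gg (pt (yy j)) := h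
    rw [gc, gc] at h'
    exact yy_inj h'
  · intro i j h
    have h' : gg (pt (opp (yy i))) = gg (pt (yy j)) := h
    rw [gc, gc'] at h'
    exact opp_notMem _ (yy_mem i) (h' ▸ yy_mem j)
  · intro ε i j
    change dist (pick _ _ ε i) (pick _ _ ε j) ≤ 7
    by_cases hij : i = j
    · subst hij
      rw [dist_self]; norm_num
    have hne : yy i ≠ yy j := fun h => hij (yy_inj h)
    have r1 := (YL_range _ (yy_mem i)).2
    have r2 := (YL_range _ (yy_mem j)).2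
    have r3 := (opp_range _ (yy_mem i)).2
    have r4 := (opp_range _ (yy_mem j)).2
    unfold pick
    by_cases h1 : ε i = true <;> by_cases h2 : ε j = true
    · rw [if_pos h1, if_pos h2]
      exact hle _ _ r1 r2 (YL_diam _ (yy_mem i) _ (yy_mem j))
    · rw [if_pos h1, if_neg h2]
      exact hle _ _ r1 r4 (YL_opp _ (yy_mem i) _ (yy_mem j) hne)
    · rw [if_neg h1, if_pos h2]
      exact hle _ _ r3 r2 (YL_opp' _ (yy_mem i) _ (yy_mem j) hne)
    · rw [if_neg h1, if_neg h2]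
      exact hle _ _ r3 r4 (YL_opp_opp _ (yy_mem i) _ (yy_mem j))
  · intro u hu hc i
    by_contra hi
    have hn : (((gg (u i)).1, (gg (u i)).2) : ℕ × ℕ) ∉ YL := by
      intro hm
      obtain ⟨j, hj⟩ := yy_surj hm
      refine hi ⟨j, ?_⟩
      rw [gc, hj]
    obtain ⟨p, hp, h8⟩ := YL_facet _ (List.mem_range.2 (gg_range (u i)).1) _
      (List.mem_range.2 (gg_range (u i)).2) hn
    obtain ⟨j, hj⟩ := yy_surj hp
    obtain ⟨k, hk⟩ := hc j
    rw [gc, hj] at hk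
    have h1 : (D (gg (u i)) (gg (u k)) : ℝ) ≤ dist (u i) (u k) := D_gg _ _
    have h2 : dist (u i) (u k) ≤ 7 := hu i k
    rw [hk] at h1
    have h3 : (D (gg (u i)) p : ℝ) ≤ 7 := h1.trans h2
    have h4 : D (gg (u i)) p ≤ 7 := by exact_mod_cast h3
    have h5 : 8 ≤ D (gg (u i)) p := h8
    omega

end Pool.Agent.N505.Rips
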