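import Pool.Agent.N505.Rips.Defs

set_option autoImplicit false

namespace Pool.Agent.N505.Rips

open Finsupp

variable {V W : Type}

/-- chains supported on tuples satisfying `P` -/
abbrev Sup {m : ℕ} (P : (Fin m → V) → Prop) : Submodule ℤ ((Fin m → V) →₀ ℤ) :=
  Finsupp.supported ℤ ℤ {v | P v}

lemma boundary_single {m : ℕ} (v : Fin (m + 1) → V) (a : ℤ) :
    boundary V m (single v a) =
      ∑ j : Fin (m + 1), single (v ∘ j.succAbove) (a * (-1 : ℤ) ^ (j : ℕ)) := by
  unfold boundary
  rw [Finsupp.linearCombination_single, Finset.smul_sum]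
  refine Finset.sum_congr rfl fun j _ => ?_
  rw [Finsupp.smul_single, smul_eq_mul]

/-- the cone operator -/
noncomputable def cone (b : V) (m : ℕ) : ((Fin m → V) →₀ ℤ) →ₗ[ℤ] ((Fin (m + 1) → V) →₀ ℤ) :=
  Finsupp.lmapDomain ℤ ℤ (fun v : Fin m → V => (Fin.cons b v : Fin (m + 1) → V))

lemma cone_single (b : V) {m : ℕ} (v : Fin m → V) (a : ℤ) :
    cone b m (single v a) = single (Fin.cons b v : Fin (m + 1) → V) a := by
  unfold cone
  rw [Finsupp.lmapDomain_apply, Finsupp.mapDomain_single]

lemma cons_comp_succAbove_zero (b : V) {m : ℕ} (v : Fin m → V) :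
    (Fin.cons b v : Fin (m + 1) → V) ∘ (0 : Fin (m + 1)).succAbove = v := by
  funext i
  simp

lemma cons_comp_succAbove_succ (b : V) {m : ℕ} (v : Fin (m + 1) → V) (j : Fin (m + 1)) :
    (Fin.cons b v : Fin (m + 2) → V) ∘ j.succ.succAbove =
      (Fin.cons b (v ∘ j.succAbove) : Fin (m + 1) → V) := by
  funext i
  refine Fin.cases ?_ (fun i => ?_) i
  · simp
  · simp [Fin.succ_succAbove_succ]

lemma boundary_cone (b : V) {m : ℕ} (z : (Fin (m + 1) → V) →₀ ℤ) :
    boundary V (m + 1) (cone b (m + 1) z) = z - cone b m (boundary V m z) := by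
  induction z using Finsupp.induction_linear with
  | zero => simp
  | add f g hf hg => rw [map_add, map_add, hf, hg, map_add, map_add]; abel
  | single v a =>
    rw [cone_single, boundary_single, boundary_single, Fin.sum_univ_succ, map_sum,
      cons_comp_succAbove_zero]
    simp only [Fin.val_zero, pow_zero, mul_one, cons_comp_succAbove_succ, cone_single]
    rw [sub_eq_add_neg, ← Finset.sum_neg_distrib]
    congr 1
    refine Finset.sum_congr rfl fun j _ => ?_
    rw [Fin.val_succ, pow_succ, ← Finsupp.single_neg]
    congr 1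
    ring

/-- the map on chains induced by a map of vertices -/
noncomputable def push (f : V → W) (m : ℕ) : ((Fin m → V) →₀ ℤ) →ₗ[ℤ] ((Fin m → W) →₀ ℤ) :=
  Finsupp.lmapDomain ℤ ℤ (fun v : Fin m → V => f ∘ v)

lemma push_single (f : V → W) {m : ℕ} (v : Fin m → V) (a : ℤ) :
    push f m (single v a) = single (f ∘ v) a := by
  unfold push
  rw [Finsupp.lmapDomain_apply, Finsupp.mapDomain_single]

lemma boundary_push (f : V → W) {m : ℕ} (z : (Fin (m + 1) → V) →₀ ℤ) :
    boundary W m (push f (m + 1) z) = push f m (boundary V m z) := by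
  induction z using Finsupp.induction_linear with
  | zero => simp
  | add f g hf hg => rw [map_add, map_add, hf, hg, map_add, map_add]
  | single v a =>
    rw [push_single, boundary_single, boundary_single, map_sum]
    refine Finset.sum_congr rfl fun j _ => ?_
    rw [push_single]
    rfl

lemma mem_sup_boundary {m : ℕ} (P : (Fin (m + 1) → V) → Prop) (Q : (Fin m → V) → Prop)
    (hPQ : ∀ v, P v → ∀ j : Fin (m + 1), Q (v ∘ j.succAbove)) {z : (Fin (m + 1) → V) →₀ ℤ}
    (hz : z ∈ Sup P) : boundary V m z ∈ Sup Q := by
  have h : z = z.sum single := (Finsupp.sum_single z).symm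
  rw [h, Finsupp.sum, map_sum]
  refine Submodule.sum_mem _ fun v hv => ?_
  rw [boundary_single]
  refine Submodule.sum_mem _ fun j _ => ?_
  exact Finsupp.single_mem_supported ℤ _ (hPQ v (hz hv) j)

lemma mem_sup_cone (b : V) {m : ℕ} (P : (Fin m → V) → Prop) (Q : (Fin (m + 1) → V) → Prop)
    (hPQ : ∀ v, P v → Q (Fin.cons b v)) {z : (Fin m → V) →₀ ℤ}
    (hz : z ∈ Sup P) : cone b m z ∈ Sup Q := by
  have h : z = z.sum single := (Finsupp.sum_single z).symm
  rw [h, Finsupp.sum, map_sum]
  refine Submodule.sum_mem _ fun v hv => ?_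
  rw [cone_single]
  exact Finsupp.single_mem_supported ℤ _ (hPQ v (hz hv))

lemma boundary_boundary {m : ℕ} (z : (Fin (m + 2) → V) →₀ ℤ) :
    boundary V m (boundary V (m + 1) z) = 0 := by
  induction z using Finsupp.induction_linear with
  | zero => simp
  | add f g hf hg => rw [map_add, map_add, hf, hg, add_zero]
  | single v a =>
    -- induction on the length through the cone formula
    have key : ∀ (m : ℕ) (v : Fin (m + 2) → V) (a : ℤ),
        boundary V m (boundary V (m + 1) (single v a)) = 0 := by
      intro m
      induction m with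
      | zero =>
        intro v a
        have hv : v = Fin.cons (v 0) (fun i => v i.succ) := by
          funext i; refine Fin.cases rfl (fun i => rfl) i
        rw [hv, ← cone_single, boundary_cone, map_sub, boundary_single, map_sum, map_sum]
        simp only [Fin.sum_univ_succ, cone_single, boundary_single,
          Nat.reduceAdd, Fin.isValue, Fin.val_zero, pow_zero, mul_one,
          add_zero, Finset.univ_eq_empty, Finset.sum_empty]
        rw [sub_eq_zero]
        congr 1
      | succ m ih =>
        intro v a
        have hv : v = Fin.cons (v 0) (fun i => v i.succ) := by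
          funext i; refine Fin.cases rfl (fun i => rfl) i
        rw [hv, ← cone_single, boundary_cone, map_sub, boundary_cone, ih]
        simp
    exact key m v a

end Pool.Agent.N505.Rips
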