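import Pool.Agent.N505.Rips.CubeNine
import Pool.Agent.N505.Rips.Facet

set_option autoImplicit false

namespace Pool.Agent.N505.Rips

open Finsupp

/-- the point of the box with given code -/
def pt (p : ℕ × ℕ) : Zn 9 :=
  WithLp.toLp 1 (Fin.cons (p.1 : ℤ) fun k : Fin 8 => ((p.2 / 2 ^ (k : ℕ) % 2 : ℕ) : ℤ))

lemma dist_nat (a b : ℕ) : dist (a : ℤ) (b : ℤ) = (((a - b) + (b - a) : ℕ) : ℝ) := by
  rw [Int.dist_eq]
  rcases le_total a b with h | h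
  · rw [Nat.sub_eq_zero_of_le h, zero_add, abs_sub_comm, Nat.cast_sub h, abs_of_nonneg]
    · push_cast; rfl
    · have : (a : ℝ) ≤ b := by exact_mod_cast h
      push_cast
      linarith
  · rw [Nat.sub_eq_zero_of_le h, add_zero, Nat.cast_sub h, abs_of_nonneg]
    · push_cast; rfl
    · have : (b : ℝ) ≤ a := by exact_mod_cast h
      push_cast
      linarith

lemma dist_pt (p q : ℕ × ℕ) (hp : p.2 < 256) (hq : q.2 < 256) :
    dist (pt p) (pt q) = (D p q : ℝ) := by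
  rw [PiLp.dist_eq_of_L1, Fin.sum_univ_succ, D, pc_xor]
  have e0 : dist (pt p 0) (pt q 0) = (((p.1 - q.1) + (q.1 - p.1) : ℕ) : ℝ) := dist_nat _ _
  have e1 : ∀ k : Fin 8, dist (pt p k.succ) (pt q k.succ) =
      (((p.2 / 2 ^ (k : ℕ) % 2 + q.2 / 2 ^ (k : ℕ) % 2) % 2 : ℕ) : ℝ) := fun k =>
    dist_bit _ _
  rw [e0, Finset.sum_congr rfl fun k _ => e1 k]
  have hp' : p.2 / 256 = 0 := Nat.div_eq_of_lt hp
  have hq' : q.2 / 256 = 0 := Nat.div_eq_of_lt hq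
  rw [hp', hq']
  simp only [Fin.sum_univ_succ, Fin.sum_univ_zero, Fin.val_zero, Fin.val_succ, pow_zero,
    Nat.div_one]
  push_cast
  norm_num
  ring

/-- clamping to `{0, …, k}` -/
def cl (k x : ℤ) : ℕ := (min (max x 0) k).toNat

lemma cl_one_lt (x : ℤ) : cl 1 x < 2 := by
  unfold cl; omega

/-- the code of the nearest point of the box -/
def gg (x : Zn 9) : ℕ × ℕ :=
  (cl 2 (x 0), cl 1 (x 1) + cl 1 (x 2) * 2 + cl 1 (x 3) * 4 + cl 1 (x 4) * 8 + cl 1 (x 5) * 16 +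
    cl 1 (x 6) * 32 + cl 1 (x 7) * 64 + cl 1 (x 8) * 128)

lemma gg_range (x : Zn 9) : (gg x).1 < 3 ∧ (gg x).2 < 256 := by
  have h1 := cl_one_lt (x 1)
  have h2 := cl_one_lt (x 2)
  have h3 := cl_one_lt (x 3)
  have h4 := cl_one_lt (x 4)
  have h5 := cl_one_lt (x 5)
  have h6 := cl_one_lt (x 6)
  have h7 := cl_one_lt (x 7)
  have h8 := cl_one_lt (x 8)
  refine ⟨?_, ?_⟩
  · change cl 2 (x 0) < 3
    unfold cl
    omega
  · change cl 1 (x 1) + cl 1 (x 2) * 2 + cl 1 (x 3) * 4 + cl 1 (x 4) * 8 + cl 1 (x 5) * 16 +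
      cl 1 (x 6) * 32 + cl 1 (x 7) * 64 + cl 1 (x 8) * 128 < 256
    omega

lemma cl_two_le (u v : ℤ) :
    (((cl 2 u - cl 2 v) + (cl 2 v - cl 2 u) : ℕ) : ℝ) ≤ dist u v := by
  have h : (((cl 2 u - cl 2 v) + (cl 2 v - cl 2 u) : ℕ) : ℤ) ≤ |u - v| := by
    rw [Int.abs_eq_natAbs]
    unfold cl
    omega
  rw [Int.dist_eq]
  exact_mod_cast h

lemma cl_one_le (u v : ℤ) : (((cl 1 u + cl 1 v) % 2 : ℕ) : ℝ) ≤ dist u v := by
  have h : (((cl 1 u + cl 1 v) % 2 : ℕ) : ℤ) ≤ |u - v| := by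
    rw [Int.abs_eq_natAbs]
    unfold cl
    omega
  have h' : ((((cl 1 u + cl 1 v) % 2 : ℕ) : ℤ) : ℝ) ≤ ((|u - v| : ℤ) : ℝ) := Int.cast_le.2 h
  rw [Int.cast_natCast, Int.cast_abs, Int.cast_sub] at h'
  rw [Int.dist_eq]
  exact h'

lemma gg_digit (x : Zn 9) :
    (gg x).2 % 2 = cl 1 (x 1) ∧ (gg x).2 / 2 % 2 = cl 1 (x 2) ∧ (gg x).2 / 4 % 2 = cl 1 (x 3) ∧
    (gg x).2 / 8 % 2 = cl 1 (x 4) ∧ (gg x).2 / 16 % 2 = cl 1 (x 5) ∧
    (gg x).2 / 32 % 2 = cl 1 (x 6) ∧ (gg x).2 / 64 % 2 = cl 1 (x 7) ∧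
    (gg x).2 / 128 % 2 = cl 1 (x 8) ∧ (gg x).2 / 256 % 2 = 0 := by
  have h1 := cl_one_lt (x 1)
  have h2 := cl_one_lt (x 2)
  have h3 := cl_one_lt (x 3)
  have h4 := cl_one_lt (x 4)
  have h5 := cl_one_lt (x 5)
  have h6 := cl_one_lt (x 6)
  have h7 := cl_one_lt (x 7)
  have h8 := cl_one_lt (x 8)
  have e : (gg x).2 = cl 1 (x 1) + cl 1 (x 2) * 2 + cl 1 (x 3) * 4 + cl 1 (x 4) * 8 +
    cl 1 (x 5) * 16 + cl 1 (x 6) * 32 + cl 1 (x 7) * 64 + cl 1 (x 8) * 128 := rfl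
  rw [e]
  refine ⟨?_, ?_, ?_, ?_, ?_, ?_, ?_, ?_, ?_⟩ <;> omega

lemma D_gg (x y : Zn 9) : (D (gg x) (gg y) : ℝ) ≤ dist x y := by
  rw [PiLp.dist_eq_of_L1, D, pc_xor]
  obtain ⟨a1, a2, a3, a4, a5, a6, a7, a8, a9⟩ := gg_digit x
  obtain ⟨b1, b2, b3, b4, b5, b6, b7, b8, b9⟩ := gg_digit y
  rw [a1, a2, a3, a4, a5, a6, a7, a8, a9, b1, b2, b3, b4, b5, b6, b7, b8, b9]
  have h0 : ((((gg x).1 - (gg y).1) + ((gg y).1 - (gg x).1) : ℕ) : ℝ) ≤ dist (x 0) (y 0) :=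
    cl_two_le _ _
  have h1 := cl_one_le (x 1) (y 1)
  have h2 := cl_one_le (x 2) (y 2)
  have h3 := cl_one_le (x 3) (y 3)
  have h4 := cl_one_le (x 4) (y 4)
  have h5 := cl_one_le (x 5) (y 5)
  have h6 := cl_one_le (x 6) (y 6)
  have h7 := cl_one_le (x 7) (y 7)
  have h8 := cl_one_le (x 8) (y 8)
  have hs : ∑ i : Fin 9, dist (x i) (y i) = dist (x 0) (y 0) + dist (x 1) (y 1) +
      dist (x 2) (y 2) + dist (x 3) (y 3) + dist (x 4) (y 4) + dist (x 5) (y 5) +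
      dist (x 6) (y 6) + dist (x 7) (y 7) + dist (x 8) (y 8) := by
    simp only [Fin.sum_univ_succ, Fin.sum_univ_zero]
    simp only [add_zero, ← add_assoc]
    rfl
  rw [hs, Nat.cast_add, Nat.cast_add, Nat.cast_add, Nat.cast_add, Nat.cast_add, Nat.cast_add,
    Nat.cast_add, Nat.cast_add, Nat.cast_add]
  norm_num at *
  linarith

end Pool.Agent.N505.Rips
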