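import Pool.Agent.N505.Rips.Hom

set_option autoImplicit false

namespace Pool.Agent.N505.Rips

open Finsupp

variable {V : Type}

/-- all entries are pairwise related -/
def Cl (A : V → V → Prop) {m : ℕ} (v : Fin m → V) : Prop := ∀ i j, A (v i) (v j)

/-- some member of `B` is related to all the entries -/
def Near (A : V → V → Prop) (B : Finset V) {m : ℕ} (v : Fin m → V) : Prop :=
  ∃ b ∈ B, ∀ i, A b (v i)

lemma Cl.comp {A : V → V → Prop} {m k : ℕ} {v : Fin m → V} (h : Cl A v) (f : Fin k → Fin m) :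
    Cl A (v ∘ f) := fun i j => h (f i) (f j)

lemma Near.comp {A : V → V → Prop} {B : Finset V} {m k : ℕ} {v : Fin m → V} (h : Near A B v)
    (f : Fin k → Fin m) : Near A B (v ∘ f) := by
  obtain ⟨b, hb, h⟩ := h
  exact ⟨b, hb, fun i => h (f i)⟩

lemma Cl.cons {A : V → V → Prop} (hr : ∀ x, A x x) (hs : ∀ x y, A x y → A y x) {m : ℕ}
    {v : Fin m → V} (h : Cl A v) {b : V} (hb : ∀ i, A b (v i)) :
    Cl A (Fin.cons b v : Fin (m + 1) → V) := by
  intro i j
  refine Fin.cases ?_ (fun i => ?_) i <;> refine Fin.cases ?_ (fun j => ?_) j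
  · simpa using hr b
  · simpa using hb j
  · simpa using hs _ _ (hb i)
  · simpa using h i j

theorem fill (A : V → V → Prop) (hr : ∀ x, A x x) (hs : ∀ x y, A x y → A y x) {m : ℕ}
    (B : Finset V) (hB : ∀ b ∈ B, ∀ b' ∈ B, A b b') :
    ∀ z : (Fin (m + 1) → V) →₀ ℤ, z ∈ Sup (fun v => Cl A v ∧ Near A B v) →
      boundary V m z = 0 → ∃ w ∈ Sup (fun v : Fin (m + 2) → V => Cl A v),
        boundary V (m + 1) w = z := by
  classical
  induction B using Finset.induction_on with
  | empty =>
    intro z hz _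
    refine ⟨0, Submodule.zero_mem _, ?_⟩
    have : z = 0 := by
      rw [← Finsupp.support_eq_empty, Finset.eq_empty_iff_forall_notMem]
      intro v hv
      obtain ⟨-, b, hb, -⟩ := hz hv
      exact absurd hb (Finset.notMem_empty b)
    rw [this, map_zero]
  | insert b B hbB ih =>
    intro z hz h0
    have hB' : ∀ c ∈ B, ∀ c' ∈ B, A c c' := fun c hc c' hc' =>
      hB c (Finset.mem_insert_of_mem hc) c' (Finset.mem_insert_of_mem hc')
    set z1 := z.filter (fun v => Near A B v) with hz1
    set z2 := z.filter (fun v => ¬ Near A B v) with hz2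
    have hsum : z1 + z2 = z := Finsupp.filter_add_filter_not z _
    have m1 : z1 ∈ Sup (fun v => Cl A v ∧ Near A B v) := by
      intro v hv
      rw [Finset.mem_coe, hz1, Finsupp.support_filter, Finset.mem_filter] at hv
      exact ⟨(hz hv.1).1, hv.2⟩
    have m2 : z2 ∈ Sup (fun v => Cl A v ∧ ∀ i, A b (v i)) := by
      intro v hv
      rw [Finset.mem_coe, hz2, Finsupp.support_filter, Finset.mem_filter] at hv
      obtain ⟨hc, c, hcB, h⟩ := hz hv.1
      rcases Finset.mem_insert.1 hcB with rfl | hc'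
      · exact ⟨hc, h⟩
      · exact absurd ⟨c, hc', h⟩ hv.2
    -- the boundary of `z2`
    have d1 : boundary V m z1 ∈ Sup (fun v => Cl A v ∧ Near A B v) :=
      mem_sup_boundary _ _ (fun v hv j => ⟨hv.1.comp _, hv.2.comp _⟩) m1
    have d2 : boundary V m z2 ∈ Sup (fun v => Cl A v ∧ ∀ i, A b (v i)) :=
      mem_sup_boundary _ _ (fun v hv j => ⟨hv.1.comp _, fun i => hv.2 _⟩) m2
    have d12 : boundary V m z2 = - boundary V m z1 := by
      rw [eq_neg_iff_add_eq_zero, ← map_add, add_comm z2 z1, hsum, h0]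
    have d3 : boundary V m z2 ∈
        Sup (fun v => (Cl A v ∧ ∀ i, A b (v i)) ∧ Near A B v) := by
      intro v hv
      refine ⟨d2 hv, ?_⟩
      rw [d12] at hv
      exact (Submodule.neg_mem _ d1 hv).2
    have c2 : cone b (m + 1) z2 ∈ Sup (fun v : Fin (m + 2) → V => Cl A v) :=
      mem_sup_cone b _ _ (fun v hv => hv.1.cons hr hs hv.2) m2
    have c3 : cone b m (boundary V m z2) ∈ Sup (fun v => Cl A v ∧ Near A B v) := by
      refine mem_sup_cone b _ _ (fun v hv => ⟨hv.1.1.cons hr hs hv.1.2, ?_⟩) d3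
      obtain ⟨c, hc, h⟩ := hv.2
      refine ⟨c, hc, fun i => ?_⟩
      refine Fin.cases ?_ (fun i => ?_) i
      · simpa using hB c (Finset.mem_insert_of_mem hc) b (Finset.mem_insert_self _ _)
      · simpa using h i
    have hz' : z - boundary V (m + 1) (cone b (m + 1) z2) =
        z1 + cone b m (boundary V m z2) := by
      rw [boundary_cone, ← hsum]
      abel
    obtain ⟨w, hw, hwz⟩ := ih hB' (z - boundary V (m + 1) (cone b (m + 1) z2))
      (by rw [hz']; exact Submodule.add_mem _ m1 c3)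
      (by rw [map_sub, boundary_boundary, h0, sub_zero])
    refine ⟨w + cone b (m + 1) z2, Submodule.add_mem _ hw c2, ?_⟩
    rw [map_add, hwz]
    abel

/-- Vanishing criterion: `B` is a clique and every clique tuple with `m + 1` entries is either
dominated by a member of `B` or can be pushed off by a vertex `w`. -/
theorem vanish (A : V → V → Prop) (hr : ∀ x, A x x) (hs : ∀ x y, A x y → A y x) {m : ℕ}
    (B : Finset V) (hB : ∀ b ∈ B, ∀ b' ∈ B, A b b')
    (hP : ∀ v : Fin (m + 1) → V, Cl A v → Near A B v ∨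
      ∃ w, (∀ i, A w (v i)) ∧ ∀ j, ∃ b ∈ B, A b w ∧ ∀ i, i ≠ j → A b (v i)) :
    ∀ z : (Fin (m + 1) → V) →₀ ℤ, z ∈ Sup (fun v => Cl A v) →
      boundary V m z = 0 → ∃ w ∈ Sup (fun v : Fin (m + 2) → V => Cl A v),
        boundary V (m + 1) w = z := by
  classical
  intro z hz h0
  have hP' : ∀ v : Fin (m + 1) → V, ∃ w, Cl A v → ¬ Near A B v →
      (∀ i, A w (v i)) ∧ ∀ j, ∃ b ∈ B, A b w ∧ ∀ i, i ≠ j → A b (v i) := by
    intro v
    by_cases hc : Cl A v
    · rcases hP v hc with h | ⟨w, h⟩
      · exact ⟨v 0, fun _ h' => absurd h h'⟩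
      · exact ⟨w, fun _ _ => h⟩
    · exact ⟨v 0, fun h => absurd h hc⟩
  choose w hw using hP'
  set u : (Fin (m + 2) → V) →₀ ℤ :=
    ∑ v ∈ z.support, if Near A B v then 0 else single (Fin.cons (w v) v) (z v) with hu
  have hu1 : u ∈ Sup (fun v : Fin (m + 2) → V => Cl A v) := by
    refine Submodule.sum_mem _ fun v hv => ?_
    by_cases h : Near A B v
    · rw [if_pos h]; exact Submodule.zero_mem _
    · rw [if_neg h]
      refine Finsupp.single_mem_supported ℤ _ ?_
      exact (hz hv : Cl A v).cons hr hs (hw v (hz hv) h).1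
  have hu2 : z - boundary V (m + 1) u ∈ Sup (fun v => Cl A v ∧ Near A B v) := by
    have e : z - boundary V (m + 1) u = ∑ v ∈ z.support, (single v (z v) -
        boundary V (m + 1) (if Near A B v then 0 else single (Fin.cons (w v) v) (z v))) := by
      rw [Finset.sum_sub_distrib, ← map_sum, ← hu]
      congr 1
      exact (Finsupp.sum_single z).symm
    rw [e]
    refine Submodule.sum_mem _ fun v hv => ?_
    have hc : Cl A v := hz hv
    by_cases h : Near A B v
    · rw [if_pos h, map_zero, sub_zero]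
      exact Finsupp.single_mem_supported ℤ _ ⟨hc, h⟩
    · obtain ⟨h1, h2⟩ := hw v hc h
      rw [if_neg h, ← cone_single, boundary_cone, sub_sub_cancel, boundary_single, map_sum]
      refine Submodule.sum_mem _ fun j _ => ?_
      rw [cone_single]
      refine Finsupp.single_mem_supported ℤ _ ⟨(hc.comp _).cons hr hs fun i => h1 _, ?_⟩
      obtain ⟨b, hb, hbw, hbv⟩ := h2 j
      refine ⟨b, hb, fun i => ?_⟩
      refine Fin.cases ?_ (fun i => ?_) i
      · simpa using hbw
      · simpa using hbv _ (Fin.succAbove_ne j i)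
  obtain ⟨y, hy, hyz⟩ := fill A hr hs B hB _ hu2 (by rw [map_sub, boundary_boundary, h0, sub_zero])
  refine ⟨y + u, Submodule.add_mem _ hy hu1, ?_⟩
  rw [map_add, hyz]
  abel

end Pool.Agent.N505.Rips
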